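import Pool.Agent.H624.WS.Stm

/-!
# MP_33144e_an, piece CONV (helper282 for helper624)
-/

set_option autoImplicit false

open MeasureTheory Set Filter Topology
open scoped ENNReal

noncomputable section

namespace Pool.Agent.H282.WS

open Pool.Agent.H624.WS

/-- uniform approximation by Cauchy sequences -/
theorem cauchy_of_approx (a : ℕ → ℝ)
    (h : ∀ ε : ℝ, 0 < ε → ∃ b : ℕ → ℝ, CauchySeq b ∧ ∀ n, |a n - b n| ≤ ε) : CauchySeq a := by
  rw [Metric.cauchySeq_iff']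
  intro ε hε
  obtain ⟨b, hb, hab⟩ := h (ε / 4) (by linarith)
  rw [Metric.cauchySeq_iff'] at hb
  obtain ⟨N, hN⟩ := hb (ε / 4) (by linarith)
  refine ⟨N, fun n hn => ?_⟩
  have h1 := hN n hn
  rw [Real.dist_eq] at h1 ⊢
  have h2 := hab n
  have h3 := hab N
  rw [abs_lt] at h1 ⊢
  rw [abs_le] at h2 h3
  constructor <;> linarith

section

variable {Y : Type} [NormedAddCommGroup Y] [NormedSpace ℝ Y] (Λ : ℕ → (Y →L[ℝ] ℝ))
  (hΛ : ∀ n, ‖Λ n‖ ≤ 1)

include hΛ

theorem apply_le (n : ℕ) (f : Y) : ‖Λ n f‖ ≤ 1 * ‖f‖ :=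
  ((Λ n).le_opNorm f).trans (mul_le_mul_of_nonneg_right (hΛ n) (norm_nonneg f))

theorem isClosed_cauchy : IsClosed {f : Y | CauchySeq (fun n => Λ n f)} := by
  rw [← closure_subset_iff_isClosed]
  intro f hf
  apply cauchy_of_approx
  intro ε hε
  obtain ⟨g, hg, hfg⟩ := Metric.mem_closure_iff.1 hf ε hε
  refine ⟨fun n => Λ n g, hg, fun n => ?_⟩
  rw [← map_sub, ← Real.norm_eq_abs]
  refine (apply_le Λ hΛ n _).trans ?_
  rw [one_mul, ← dist_eq_norm]
  exact hfg.le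

theorem exists_limit (h : ∀ f, CauchySeq (fun n => Λ n f)) :
    ∃ ψ : Y →L[ℝ] ℝ, ‖ψ‖ ≤ 1 ∧ ∀ f, Tendsto (fun n => Λ n f) atTop (𝓝 (ψ f)) := by
  choose l hl using fun f => cauchySeq_tendsto_of_complete (h f)
  let ψ : Y →ₗ[ℝ] ℝ :=
    { toFun := l
      map_add' := fun f g => tendsto_nhds_unique (hl (f + g)) (by
        simpa using (hl f).add (hl g))
      map_smul' := fun c f => tendsto_nhds_unique (hl (c • f)) (by
        simpa using (hl f).const_mul c) }
  have hb : ∀ f, ‖ψ f‖ ≤ 1 * ‖f‖ := fun f =>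
    le_of_tendsto (hl f).norm (Eventually.of_forall fun n => apply_le Λ hΛ n f)
  exact ⟨ψ.mkContinuous 1 hb, LinearMap.mkContinuous_norm_le _ zero_le_one _, hl⟩

end

theorem floor_approx {Ω : Type} [m0 : MeasurableSpace Ω] (μ : Measure Ω) [IsProbabilityMeasure μ]
    (h : Ω → ℝ) (hm : Measurable h) (h0 : ∀ ω, 0 ≤ h ω) (h1 : ∀ ω, h ω ≤ 1) (f : Ω → ℝ)
    (hf : Integrable f μ) (j : ℕ) (hj : 0 < j) :
    |∫ ω, h ω * f ω ∂μ - ∑ i ∈ Finset.range (j + 1), (i : ℝ) / j *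
      ∫ ω in {ω | ⌊(j : ℝ) * h ω⌋₊ = i}, f ω ∂μ| ≤ 1 / (j : ℝ) * ∫ ω, |f ω| ∂μ := by
  have hj' : (0 : ℝ) < j := by exact_mod_cast hj
  have hE : ∀ i : ℕ, MeasurableSet {ω | ⌊(j : ℝ) * h ω⌋₊ = i} := by
    intro i
    have h2 : Measurable fun ω => ⌊(j : ℝ) * h ω⌋₊ := (hm.const_mul _).nat_floor
    exact h2 (measurableSet_singleton i)
  set φ : Ω → ℝ := fun ω => (⌊(j : ℝ) * h ω⌋₊ : ℝ) / j with hφ
  have hφm : Measurable φ := by
    have h2 : Measurable fun ω => ⌊(j : ℝ) * h ω⌋₊ := (hm.const_mul _).nat_floor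
    exact (measurable_from_nat.comp h2 : Measurable fun ω => ((⌊(j : ℝ) * h ω⌋₊ : ℕ) : ℝ)).div_const _
  have hle : ∀ ω, φ ω ≤ h ω := by
    intro ω
    rw [hφ]
    show _ / _ ≤ _
    rw [div_le_iff₀ hj']
    have := Nat.floor_le (mul_nonneg hj'.le (h0 ω))
    linarith
  have hge : ∀ ω, h ω - φ ω ≤ 1 / j := by
    intro ω
    have h3 := (Nat.lt_floor_add_one ((j : ℝ) * h ω)).le
    have h4 : h ω ≤ φ ω + 1 / j := by
      rw [hφ]
      show _ ≤ _ / _ + _
      rw [← add_div, le_div_iff₀ hj']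
      linarith
    linarith
  have hφ0 : ∀ ω, 0 ≤ φ ω := fun ω => by rw [hφ]; positivity
  have ih : Integrable (fun ω => h ω * f ω) μ := by
    refine hf.bdd_mul (c := 1) hm.aestronglyMeasurable (Eventually.of_forall fun ω => ?_)
    rw [Real.norm_of_nonneg (h0 ω)]
    exact h1 ω
  have iφ : Integrable (fun ω => φ ω * f ω) μ := by
    refine hf.bdd_mul (c := 1) hφm.aestronglyMeasurable (Eventually.of_forall fun ω => ?_)
    rw [Real.norm_of_nonneg (hφ0 ω)]
    exact (hle ω).trans (h1 ω)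
  have e1 : ∑ i ∈ Finset.range (j + 1), (i : ℝ) / j *
      ∫ ω in {ω | ⌊(j : ℝ) * h ω⌋₊ = i}, f ω ∂μ = ∫ ω, φ ω * f ω ∂μ := by
    have e2 : ∀ i ∈ Finset.range (j + 1), (i : ℝ) / j *
        ∫ ω in {ω | ⌊(j : ℝ) * h ω⌋₊ = i}, f ω ∂μ =
        ∫ ω, (i : ℝ) / j * ({ω | ⌊(j : ℝ) * h ω⌋₊ = i}.indicator f ω) ∂μ := by
      intro i _
      rw [integral_const_mul, integral_indicator (hE i)]
    rw [Finset.sum_congr rfl e2, ← integral_finsetSum]
    · refine integral_congr_ae (Eventually.of_forall fun ω => ?_)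
      show ∑ i ∈ Finset.range (j + 1), (i : ℝ) / j *
        ({ω | ⌊(j : ℝ) * h ω⌋₊ = i}.indicator f ω) = φ ω * f ω
      rw [Finset.sum_eq_single_of_mem ⌊(j : ℝ) * h ω⌋₊]
      · rw [Set.indicator_of_mem (by exact rfl)]
      · rw [Finset.mem_range, Nat.lt_succ_iff]
        have h5 : (j : ℝ) * h ω ≤ j := by nlinarith [h1 ω]
        calc ⌊(j : ℝ) * h ω⌋₊ ≤ ⌊(j : ℝ)⌋₊ := Nat.floor_mono h5
          _ = j := Nat.floor_natCast j
      · intro i _ hi
        rw [Set.indicator_of_notMem (fun h' => hi h'.symm), mul_zero]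
    · intro i _
      exact (hf.indicator (hE i)).const_mul _
  rw [e1, ← integral_sub ih iφ, ← integral_const_mul]
  refine (abs_integral_le_integral_abs).trans ?_
  refine integral_mono (ih.sub iφ).abs (hf.abs.const_mul _) fun ω => ?_
  show |h ω * f ω - φ ω * f ω| ≤ 1 / (j : ℝ) * |f ω|
  rw [← sub_mul, abs_mul, abs_of_nonneg (by linarith [hle ω])]
  exact mul_le_mul_of_nonneg_right (hge ω) (abs_nonneg _)

/-- the conditional probability as a function with values in `[0, 1]` -/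
theorem exists_cond {Ω : Type} [m0 : MeasurableSpace Ω] (μ : Measure Ω) [IsProbabilityMeasure μ]
    (m : MeasurableSpace Ω) (hm : m ≤ m0) (s : Set Ω) (hs : MeasurableSet[m0] s) :
    ∃ h : Ω → ℝ, Measurable[m] h ∧ (∀ ω, 0 ≤ h ω) ∧ (∀ ω, h ω ≤ 1) ∧
      ∀ f g : Ω → ℝ, Integrable f μ → Measurable[m] g → f =ᵐ[μ] g →
        ∫ ω in s, f ω ∂μ = ∫ ω, h ω * f ω ∂μ := by
  set c : Ω → ℝ := μ[s.indicator (fun _ => (1 : ℝ)) | m] with hc
  have hcm : StronglyMeasurable[m] c := stronglyMeasurable_condExp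
  have hind : Integrable (s.indicator (fun _ => (1 : ℝ))) μ := (integrable_const _).indicator hs
  have hc0 : 0 ≤ᵐ[μ] c := condExp_nonneg (Eventually.of_forall fun ω =>
    Set.indicator_nonneg (fun _ _ => zero_le_one) ω)
  have hc1 : c ≤ᵐ[μ] fun _ => (1 : ℝ) := by
    have h1 : c ≤ᵐ[μ] μ[(fun _ => (1 : ℝ)) | m] := condExp_mono hind (integrable_const _)
      (Eventually.of_forall fun ω => by
        show s.indicator (fun _ => (1 : ℝ)) ω ≤ 1
        by_cases hω : ω ∈ s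
        · rw [Set.indicator_of_mem hω]
        · rw [Set.indicator_of_notMem hω]
          exact zero_le_one)
    rwa [condExp_const hm] at h1
  refine ⟨fun ω => max 0 (min 1 (c ω)), ?_, fun ω => le_max_left _ _,
    fun ω => max_le zero_le_one (min_le_left _ _), ?_⟩
  · have h1 : Measurable[m] c := hcm.measurable
    exact measurable_const.max (measurable_const.min h1)
  · intro f g hf hg hfg
    have hgi : Integrable g μ := hf.congr hfg
    have hgs : StronglyMeasurable[m] g := hg.stronglyMeasurable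
    have e0 : (g * s.indicator (fun _ => (1 : ℝ))) = s.indicator g := by
      funext ω
      by_cases hω : ω ∈ s
      · simp [hω]
      · simp [hω]
    have hgi2 : Integrable (g * s.indicator (fun _ => (1 : ℝ))) μ := by
      rw [e0]
      exact hgi.indicator hs
    have e1 : ∫ ω in s, f ω ∂μ = ∫ ω, (g * s.indicator (fun _ => (1 : ℝ))) ω ∂μ := by
      rw [e0, integral_indicator hs]
      exact integral_congr_ae (ae_restrict_of_ae hfg)
    have e2 := integral_condExp (μ := μ) (f := g * s.indicator (fun _ => (1 : ℝ))) hm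
    have e3 := condExp_mul_of_stronglyMeasurable_left (m := m) (μ := μ) hgs hgi2 hind
    rw [e1, ← e2]
    refine integral_congr_ae ?_
    filter_upwards [e3, hfg, hc0, hc1] with ω h1 h2 h3 h4
    have h3' : 0 ≤ c ω := h3
    rw [h1, Pi.mul_apply, ← h2, min_eq_right h4, max_eq_right h3', mul_comm]

theorem all_of_ind {Ω : Type} [m0 : MeasurableSpace Ω] (μ : Measure Ω) [IsProbabilityMeasure μ]
    (X : Type) [NormedAddCommGroup X] [NormedSpace ℝ X] (p : ℝ≥0∞) [Fact (1 ≤ p)] (hp : p ≠ ∞)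
    (Λ : ℕ → (Lp X p μ →L[ℝ] ℝ)) (hΛ : ∀ n, ‖Λ n‖ ≤ 1)
    (hb : ∀ (s : Set Ω) (hs : MeasurableSet s) (x : X),
      CauchySeq (fun n => Λ n (indicatorConstLp p hs (measure_ne_top μ s) x))) :
    ∃ ψ : Lp X p μ →L[ℝ] ℝ, ‖ψ‖ ≤ 1 ∧ ∀ f, Tendsto (fun n => Λ n f) atTop (𝓝 (ψ f)) := by
  refine exists_limit Λ hΛ ?_
  refine Lp.induction hp _ ?_ ?_ (isClosed_cauchy Λ hΛ)
  · intro c s hs hμs
    rw [Lp.simpleFunc.coe_indicatorConst]
    exact hb s hs c
  · intro f g hf hg _ h1 h2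
    obtain ⟨l1, hl1⟩ := cauchySeq_tendsto_of_complete h1
    obtain ⟨l2, hl2⟩ := cauchySeq_tendsto_of_complete h2
    have h3 : Tendsto (fun n => Λ n (hf.toLp f + hg.toLp g)) atTop (𝓝 (l1 + l2)) := by
      simpa only [map_add] using hl1.add hl2
    exact h3.cauchySeq

theorem sCONV : S_CONV := by
  intro Ω m0 μ _ X _ _ p _ hp Λ hΛ t w hRep m hm hg 𝒜 h𝒜 happ k _ hconv
  have hΛ' : ∀ n, ‖Λ (k n)‖ ≤ 1 := fun n => hΛ (k n)
  have hclosed := isClosed_cauchy (fun n => Λ (k n)) hΛ'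
  -- (a)
  have ha : ∀ (s : Set Ω) (hs : MeasurableSet[m] s) (x : X),
      CauchySeq (fun n => Λ (k n) (indicatorConstLp p (hm s hs) (measure_ne_top μ s) x)) := by
    intro s hs x
    have h1 : ∀ i : ℕ, ∃ a ∈ 𝒜, μ.real (symmDiff s a) < 1 / ((i : ℝ) + 1) := fun i =>
      happ s hs _ (by positivity)
    choose a ha𝒜 ha1 using h1
    have h2 : Tendsto (fun i => indicatorConstLp p (h𝒜 (a i) (ha𝒜 i))
        (measure_ne_top μ (a i)) x) atTop
        (𝓝 (indicatorConstLp p (hm s hs) (measure_ne_top μ s) x)) := by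
      refine tendsto_indicatorConstLp_set hp ?_
      have h3 : Tendsto (fun i => μ.real (symmDiff s (a i))) atTop (𝓝 0) :=
        squeeze_zero (fun i => measureReal_nonneg) (fun i => (ha1 i).le)
          tendsto_one_div_add_atTop_nhds_zero_nat
      have h4 := ENNReal.tendsto_ofReal h3
      rw [ENNReal.ofReal_zero] at h4
      refine h4.congr fun i => ?_
      rw [ofReal_measureReal, symmDiff_comm]
    refine hclosed.mem_of_tendsto h2 (Eventually.of_forall fun i => ?_)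
    obtain ⟨l, hl⟩ := hconv (a i) (h𝒜 (a i) (ha𝒜 i)) (ha𝒜 i) x
    exact hl.cauchySeq
  -- (b)
  have hb : ∀ (s : Set Ω) (hs : MeasurableSet[m0] s) (x : X),
      CauchySeq (fun n => Λ (k n) (indicatorConstLp p hs (measure_ne_top μ s) x)) := by
    intro s hs x
    obtain ⟨h, hmeas, hh0, hh1, hh⟩ := exists_cond (m0 := m0) μ m hm s hs
    have hti : ∀ n, Integrable (t (k n) x) μ := by
      intro n
      obtain ⟨r1, r2, r3, r4, r5, r6, r7⟩ := hRep (k n)
      exact (r4.const_mul ‖x‖).mono' (r1 x).aestronglyMeasurable (r6 x)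
    have htb : ∀ n, ∫ ω, |t (k n) x ω| ∂μ ≤ ‖x‖ := by
      intro n
      obtain ⟨r1, r2, r3, r4, r5, r6, r7⟩ := hRep (k n)
      calc ∫ ω, |t (k n) x ω| ∂μ ≤ ∫ ω, ‖x‖ * w (k n) ω ∂μ :=
            integral_mono_ae (hti n).abs (r4.const_mul _) (r6 x)
        _ = ‖x‖ * ∫ ω, w (k n) ω ∂μ := integral_const_mul _ _
        _ ≤ ‖x‖ * 1 := mul_le_mul_of_nonneg_left r5 (norm_nonneg x)
        _ = ‖x‖ := mul_one _
    apply cauchy_of_approx
    intro ε hε
    obtain ⟨j, hj⟩ := exists_nat_gt (‖x‖ / ε)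
    have hj0 : 0 < j := by
      have h1 : (0 : ℝ) ≤ ‖x‖ / ε := by positivity
      exact_mod_cast h1.trans_lt hj
    have hj' : (0 : ℝ) < j := by exact_mod_cast hj0
    have hE : ∀ i : ℕ, MeasurableSet[m] {ω | ⌊(j : ℝ) * h ω⌋₊ = i} := by
      intro i
      have h2 : Measurable[m] fun ω => ⌊(j : ℝ) * h ω⌋₊ := (hmeas.const_mul _).nat_floor
      exact h2 (measurableSet_singleton i)
    refine ⟨fun n => ∑ i ∈ Finset.range (j + 1), (i : ℝ) / j *
      Λ (k n) (indicatorConstLp p (hm _ (hE i)) (measure_ne_top μ _) x), ?_, fun n => ?_⟩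
    · choose l hl using fun i => cauchySeq_tendsto_of_complete (ha _ (hE i) x)
      exact (tendsto_finsetSum _ fun i _ => (hl i).const_mul ((i : ℝ) / j)).cauchySeq
    · obtain ⟨r1, r2, r3, r4, r5, r6, r7⟩ := hRep (k n)
      obtain ⟨g, hg1, hg2⟩ := hg (k n) x
      have e1 : Λ (k n) (indicatorConstLp p hs (measure_ne_top μ s) x) =
          ∫ ω, h ω * t (k n) x ω ∂μ := by
        rw [r7]
        exact hh _ g (hti n) hg1 hg2
      rw [e1]
      have e2 : ∑ i ∈ Finset.range (j + 1), (i : ℝ) / j *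
          Λ (k n) (indicatorConstLp p (hm _ (hE i)) (measure_ne_top μ _) x) =
          ∑ i ∈ Finset.range (j + 1), (i : ℝ) / j *
            ∫ ω in {ω | ⌊(j : ℝ) * h ω⌋₊ = i}, t (k n) x ω ∂μ := by
        refine Finset.sum_congr rfl fun i _ => ?_
        rw [r7]
      beta_reduce
      rw [e2]
      refine (floor_approx (m0 := m0) μ h (hmeas.mono hm le_rfl) hh0 hh1 _ (hti n) j hj0).trans ?_
      calc 1 / (j : ℝ) * ∫ ω, |t (k n) x ω| ∂μ ≤ 1 / (j : ℝ) * ‖x‖ :=
            mul_le_mul_of_nonneg_left (htb n) (by positivity)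
        _ ≤ ε := by
            rw [div_lt_iff₀ hε] at hj
            rw [one_div, inv_mul_le_iff₀ hj']
            linarith
  exact all_of_ind (m0 := m0) μ X p hp (fun n => Λ (k n)) hΛ' hb

end Pool.Agent.H282.WS
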